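import Mathlib

set_option autoImplicit false

namespace Pool.Agent.Results.MP_81db1e_al.NoCommonEnvelope

open Polynomial

universe u

/-- A finite-dimensional representation of a `k`-algebra `R` in the widest sense of the problem:
a field extension `F` of `k`, an associative `F`-algebra `A` (not assumed unital) of finite
dimension over `F`, and an injective multiplicative `k`-linear map from `R` to `A`. -/
structure Rep (k R : Type u) [Field k] [NonUnitalRing R] [Module k R] where
  /-- the field -/
  F : Type u
  [fieldF : Field F]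
  [algF : Algebra k F]
  /-- the algebra -/
  A : Type u
  [ringA : NonUnitalRing A]
  [modA : Module F A]
  [towerA : IsScalarTower F A A]
  [commA : SMulCommClass F A A]
  [finA : Module.Finite F A]
  [modkA : Module k A]
  [towerk : IsScalarTower k F A]
  /-- the map -/
  φ : R →ₙₐ[k] A
  inj : Function.Injective φ

/-- A family of elements of `R` is linearly dependent in the representation. -/
def Rep.Dep {k R : Type u} [Field k] [NonUnitalRing R] [Module k R] (P : Rep k R)
    {ι : Type u} (r : ι → R) : Prop :=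
  letI := P.fieldF
  letI := P.ringA
  letI := P.modA
  letI := P.modkA
  ¬ LinearIndependent P.F (fun i => P.φ (r i))

/-- The unital version: `A` is a unital `F`-algebra and the map is a homomorphism of unital
`k`-algebras. -/
structure URep (k R : Type u) [Field k] [Ring R] [Algebra k R] where
  /-- the field -/
  F : Type u
  [fieldF : Field F]
  [algF : Algebra k F]
  /-- the algebra -/
  A : Type u
  [ringA : Ring A]
  [algA : Algebra F A]
  [finA : Module.Finite F A]
  [algkA : Algebra k A]
  [towerk : IsScalarTower k F A]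
  /-- the map -/
  φ : R →ₐ[k] A
  inj : Function.Injective φ

/-- A family of elements of `R` is linearly dependent in the unital representation. -/
def URep.Dep {k R : Type u} [Field k] [Ring R] [Algebra k R] (P : URep k R)
    {ι : Type u} (r : ι → R) : Prop :=
  letI := P.fieldF
  letI := P.ringA
  letI := P.algA
  letI := P.algkA
  ¬ LinearIndependent P.F (fun i => P.φ (r i))

/-- forget the unit -/
def URep.toRep {k R : Type u} [Field k] [Ring R] [Algebra k R] (P : URep k R) : Rep k R :=
  letI := P.fieldF
  letI := P.algF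
  letI := P.ringA
  letI := P.algA
  letI := P.finA
  letI := P.algkA
  letI := P.towerk
  { F := P.F
    A := P.A
    φ := (P.φ : R →ₙₐ[k] P.A)
    inj := P.inj }

theorem URep.toRep_dep {k R : Type u} [Field k] [Ring R] [Algebra k R] (P : URep k R)
    {ι : Type u} (r : ι → R) : P.toRep.Dep r ↔ P.Dep r := Iff.rfl

/-- the algebra `k[X] × k[X]` -/
abbrev RR (k : Type u) [Field k] : Type u := k[X] × k[X]

/-- the pair `(1,1), (X, X + t)`, indexed by booleans lifted to the universe -/
noncomputable def pair (k : Type u) [Field k] (t : k) : ULift.{u} Bool → RR k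
  | ⟨false⟩ => (1, 1)
  | ⟨true⟩ => (X, X + C t)

/-- dependence of a boolean-indexed family gives a relation -/
theorem dep_bool {F A : Type u} [Field F] [AddCommGroup A] [Module F A]
    (v : ULift.{u} Bool → A) (h : ¬ LinearIndependent F v) :
    ∃ a b : F, (a ≠ 0 ∨ b ≠ 0) ∧ a • v ⟨false⟩ + b • v ⟨true⟩ = 0 := by
  by_contra hne
  push Not at hne
  apply h
  rw [Fintype.linearIndependent_iff]
  intro g hg
  have hsum : ∑ i, g i • v i = g ⟨false⟩ • v ⟨false⟩ + g ⟨true⟩ • v ⟨true⟩ := by
    rw [← Equiv.sum_comp Equiv.ulift.symm]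
    rw [Fintype.sum_bool, add_comm]
    rfl
  rw [hsum] at hg
  by_contra hcon
  push Not at hcon
  obtain ⟨⟨i⟩, hi⟩ := hcon
  have : g ⟨false⟩ ≠ 0 ∨ g ⟨true⟩ ≠ 0 := by
    cases i
    · exact Or.inl hi
    · exact Or.inr hi
  exact hne _ _ this hg

theorem dep_of_rel {F A : Type u} [Field F] [AddCommGroup A] [Module F A]
    (v : ULift.{u} Bool → A) (c : F) (h : v ⟨true⟩ = c • v ⟨false⟩) : ¬ LinearIndependent F v := by
  intro hl
  rw [Fintype.linearIndependent_iff] at hl
  have hsum : ∀ g : ULift.{u} Bool → F,
      ∑ i, g i • v i = g ⟨false⟩ • v ⟨false⟩ + g ⟨true⟩ • v ⟨true⟩ := by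
    intro g
    rw [← Equiv.sum_comp Equiv.ulift.symm]
    rw [Fintype.sum_bool, add_comm]
    rfl
  have := hl (fun i => if i.down then -1 else c) (by
    rw [hsum, h]
    simp) ⟨true⟩
  simp at this

/-- in a representation, dependence of the pair makes the second vector a multiple of the first -/
theorem Rep.rel {k : Type u} [Field k] (P : Rep k (RR k)) (t : k) (h : P.Dep (pair k t)) :
    letI := P.fieldF
    letI := P.ringA
    letI := P.modA
    letI := P.modkA
    ∃ c : P.F, P.φ (X, X + C t) = c • P.φ (1, 1) := by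
  let := P.fieldF
  let := P.ringA
  let := P.modA
  let := P.modkA
  obtain ⟨a, b, hab, hrel⟩ := dep_bool _ h
  change a • P.φ (1, 1) + b • P.φ (X, X + C t) = 0 at hrel
  have hone : P.φ (1, 1) ≠ 0 := by
    intro h0
    have : ((1, 1) : RR k) = 0 := P.inj (by rw [h0, map_zero])
    have h1 := congrArg Prod.fst this
    exact one_ne_zero h1
  have hb : b ≠ 0 := by
    intro hb
    rw [hb, zero_smul, add_zero] at hrel
    rcases hab with ha | hb'
    · rcases smul_eq_zero.1 hrel with h | h
      · exact ha h
      · exact hone h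
    · exact hb' hb
  refine ⟨-(b⁻¹ * a), ?_⟩
  have h2 : b • P.φ (X, X + C t) = -(a • P.φ (1, 1)) := by
    rw [eq_neg_iff_add_eq_zero, add_comm]; exact hrel
  calc P.φ (X, X + C t) = b⁻¹ • (b • P.φ (X, X + C t)) := by rw [smul_smul, inv_mul_cancel₀ hb, one_smul]
    _ = -(b⁻¹ * a) • P.φ (1, 1) := by rw [h2, smul_neg, smul_smul, neg_smul]

theorem Rep.not_both {k : Type u} [Field k] (P : Rep k (RR k)) :
    ¬ (P.Dep (pair k 0) ∧ P.Dep (pair k 1)) := by
  rintro ⟨h0, h1⟩
  let := P.fieldF
  let := P.ringA
  let := P.modA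
  let := P.towerA
  let := P.commA
  let := P.modkA
  obtain ⟨a, ha⟩ := P.rel 0 h0
  obtain ⟨b, hb⟩ := P.rel 1 h1
  have hsub : P.φ (0, 1) = (b - a) • P.φ (1, 1) := by
    have : ((0, 1) : RR k) = (X, X + C 1) - (X, X + C 0) := by
      ext1 <;> simp
    rw [this, map_sub, ha, hb, sub_smul]
  have hmul : (b - a) • P.φ (1, 0) = 0 := by
    have h2 : P.φ (0, 1) * P.φ (1, 0) = 0 := by
      rw [← map_mul]
      have : ((0, 1) : RR k) * (1, 0) = 0 := by ext1 <;> simp
      rw [this, map_zero]
    have h3 : P.φ (1, 1) * P.φ (1, 0) = P.φ (1, 0) := by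
      rw [← map_mul]
      have : ((1, 1) : RR k) * (1, 0) = (1, 0) := by ext1 <;> simp
      rw [this]
    rw [hsub, smul_mul_assoc, h3] at h2
    exact h2
  have h10 : P.φ (1, 0) ≠ 0 := by
    intro h
    have : ((1, 0) : RR k) = 0 := P.inj (by rw [h, map_zero])
    exact one_ne_zero (congrArg Prod.fst this)
  have h01 : P.φ (0, 1) ≠ 0 := by
    intro h
    have : ((0, 1) : RR k) = 0 := P.inj (by rw [h, map_zero])
    exact one_ne_zero (congrArg Prod.snd this)
  rcases smul_eq_zero.1 hmul with h | h
  · rw [h, zero_smul] at hsub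
    exact h01 hsub
  · exact h10 h

/-- the embedding `(p, q) ↦ (p(X + t), q)` into a product of two fields of fractions -/
noncomputable def emb (k : Type u) [Field k] (t : k) :
    RR k →ₐ[k] (FractionRing k[X] × FractionRing k[X]) :=
  AlgHom.prod
    (((IsScalarTower.toAlgHom k k[X] (FractionRing k[X])).comp
      (algEquivAevalXAddC t).toAlgHom).comp (AlgHom.fst k k[X] k[X]))
    ((IsScalarTower.toAlgHom k k[X] (FractionRing k[X])).comp (AlgHom.snd k k[X] k[X]))

theorem emb_apply (k : Type u) [Field k] (t : k) (p q : k[X]) :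
    emb k t (p, q) = (algebraMap k[X] (FractionRing k[X]) (algEquivAevalXAddC t p),
      algebraMap k[X] (FractionRing k[X]) q) := rfl

theorem emb_inj (k : Type u) [Field k] (t : k) : Function.Injective (emb k t) := by
  rintro ⟨p, q⟩ ⟨p', q'⟩ h
  rw [emb_apply, emb_apply, Prod.mk.injEq] at h
  have h3 := IsFractionRing.injective k[X] (FractionRing k[X]) h.1
  have h4 := IsFractionRing.injective k[X] (FractionRing k[X]) h.2
  have h5 := (algEquivAevalXAddC t).injective h3
  rw [h4, h5]

theorem emb_rel (k : Type u) [Field k] (t : k) :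
    emb k t (X, X + C t) = (algebraMap k[X] (FractionRing k[X]) (X + C t)) • emb k t (1, 1) := by
  rw [emb_apply, emb_apply, map_one, map_one, Prod.smul_mk, smul_eq_mul, mul_one]
  simp

theorem emb_dep (k : Type u) [Field k] (t : k) :
    ¬ LinearIndependent (FractionRing k[X]) (fun i => emb k t (pair k t i)) :=
  dep_of_rel (F := FractionRing k[X]) (A := FractionRing k[X] × FractionRing k[X])
    (fun i => emb k t (pair k t i)) (algebraMap k[X] (FractionRing k[X]) (X + C t)) (emb_rel k t)

/-- the representation twisted by the shift `X ↦ X + t` on the first factor -/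
noncomputable def PP (k : Type u) [Field k] (t : k) : URep k (RR k) where
  F := FractionRing k[X]
  A := FractionRing k[X] × FractionRing k[X]
  φ := emb k t
  inj := emb_inj k t

theorem PP_dep (k : Type u) [Field k] (t : k) : (PP k t).Dep (pair k t) := emb_dep k t

/-- **Main result.** For every field `k` there is a commutative unital `k`-algebra `R` and two
two-element families in `R`, each linearly dependent in some finite-dimensional (unital)
representation, that are not both dependent in any finite-dimensional representation. Hence there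
is no single finite-dimensional representation of `R` detecting all linear dependences, neither in
the unital sense nor in the sense of not necessarily unital associative algebras. -/
theorem result (k : Type u) [Field k] :
    ∃ (R : Type u) (_ : CommRing R) (_ : Algebra k R) (u₁ u₂ : ULift.{u} Bool → R),
      (∃ P : URep k R, P.Dep u₁) ∧ (∃ P : URep k R, P.Dep u₂) ∧
      (∀ P : Rep k R, ¬ (P.Dep u₁ ∧ P.Dep u₂)) ∧
      (∀ P : URep k R, ¬ (P.Dep u₁ ∧ P.Dep u₂)) ∧
      (¬ ∃ P₀ : URep k R, ∀ (ι : Type u) (r : ι → R), (∃ P : URep k R, P.Dep r) → P₀.Dep r) ∧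
      (¬ ∃ P₀ : Rep k R, ∀ (ι : Type u) (r : ι → R), (∃ P : Rep k R, P.Dep r) → P₀.Dep r) := by
  refine ⟨RR k, inferInstance, inferInstance, pair k 0, pair k 1, ⟨PP k 0, PP_dep k 0⟩,
    ⟨PP k 1, PP_dep k 1⟩, fun P => P.not_both, fun P h => P.toRep.not_both h, ?_, ?_⟩
  · rintro ⟨P₀, h⟩
    exact P₀.toRep.not_both ⟨h _ _ ⟨PP k 0, PP_dep k 0⟩, h _ _ ⟨PP k 1, PP_dep k 1⟩⟩
  · rintro ⟨P₀, h⟩
    exact P₀.not_both ⟨h _ _ ⟨(PP k 0).toRep, PP_dep k 0⟩, h _ _ ⟨(PP k 1).toRep, PP_dep k 1⟩⟩

end Pool.Agent.Results.MP_81db1e_al.NoCommonEnvelope
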